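import Pool.Agent.Q165.VN.Stm

set_option autoImplicit false

namespace Pool.Agent.Q164.VN

open MeasureTheory Finset Pool.Agent.Q165.VN

/-- a convex set of volume one on the line contains an interval of length `1/2` -/
lemma exists_half (F : Set (Fin 1 → ℝ)) (hF : Convex ℝ F) (hv : volume F = 1) :
    ∃ a : ℝ, {x : Fin 1 → ℝ | a ≤ x 0 ∧ x 0 ≤ a + 1 / 2} ⊆ F := by
  have hmp := volume_preserving_funUnique (Fin 1) ℝ
  set K : Set ℝ := {t | (fun _ => t : Fin 1 → ℝ) ∈ F} with hK
  have hFK : F = (MeasurableEquiv.funUnique (Fin 1) ℝ) ⁻¹' K := by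
    ext x
    have hx : (fun _ => x 0 : Fin 1 → ℝ) = x := by
      funext i
      rw [Subsingleton.elim i 0]
    simp only [hK, Set.mem_preimage, Set.mem_ofPred_eq]
    change x ∈ F ↔ (fun _ => x 0 : Fin 1 → ℝ) ∈ F
    rw [hx]
  have hKv : volume K = 1 := by
    rw [← hv, hFK]
    exact (hmp.measure_preimage_equiv K).symm
  have hKc : Convex ℝ K := by
    intro x hx y hy a b ha hb hab
    have := hF hx hy ha hb hab
    simp only [hK, Set.mem_ofPred_eq]
    exact this
  have hoc : K.OrdConnected := hKc.ordConnected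
  have hex : ∃ x ∈ K, ∃ y ∈ K, x + 1 / 2 ≤ y := by
    by_contra hcon
    push Not at hcon
    have hd : Metric.ediam K ≤ ENNReal.ofReal (1 / 2) := by
      apply Metric.ediam_le
      intro x hx y hy
      rw [edist_dist, Real.dist_eq]
      apply ENNReal.ofReal_le_ofReal
      rw [abs_le]
      have h1 := hcon x hx y hy
      have h2 := hcon y hy x hx
      constructor <;> linarith
    have h3 := (Real.volume_le_diam K).trans hd
    rw [hKv] at h3
    have : (1 : ENNReal) = ENNReal.ofReal 1 := by simp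
    rw [this, ENNReal.ofReal_le_ofReal_iff (by norm_num)] at h3
    norm_num at h3
  obtain ⟨x, hx, y, hy, hxy⟩ := hex
  refine ⟨x, ?_⟩
  intro z hz
  have hz0 : z 0 ∈ K := hoc.out hx hy ⟨hz.1, hz.2.trans hxy⟩
  have : (fun _ => z 0 : Fin 1 → ℝ) = z := by
    funext i
    rw [Subsingleton.elim i 0]
  rw [← this]
  exact hz0

lemma vol_half (a : ℝ) : volume {x : Fin 1 → ℝ | a ≤ x 0 ∧ x 0 ≤ a + 1 / 2} =
    ENNReal.ofReal (1 / 2) := by
  have hmp := volume_preserving_funUnique (Fin 1) ℝ
  have h : {x : Fin 1 → ℝ | a ≤ x 0 ∧ x 0 ≤ a + 1 / 2} =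
      (MeasurableEquiv.funUnique (Fin 1) ℝ) ⁻¹' (Set.Icc a (a + 1 / 2)) := by
    ext x
    rfl
  rw [h]
  refine (hmp.measure_preimage_equiv (Set.Icc a (a + 1 / 2))).trans ?_
  rw [Real.volume_Icc]
  congr 1
  ring

theorem one : S_ONE := by
  classical
  refine ⟨1 / 2, 1, by norm_num, ?_⟩
  intro ε hε hε1 ι _ _ F hF hvol
  choose a ha using fun i => exists_half (F i) (hF i) (hvol i)
  set N := Fintype.card ι with hN
  have hNpos : 0 < N := Fintype.card_pos
  obtain ⟨e, he⟩ : ∃ e : Fin N ≃ ι, Monotone fun r => a (e r) := by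
    refine ⟨(Tuple.sort (a ∘ (Fintype.equivFin ι).symm)).trans (Fintype.equivFin ι).symm, ?_⟩
    exact Tuple.monotone_sort (a ∘ (Fintype.equivFin ι).symm)
  set m := ⌈ε * N⌉₊ with hm
  have hNr : (0 : ℝ) < N := by exact_mod_cast hNpos
  have hm1 : 1 ≤ m := Nat.one_le_iff_ne_zero.2 (Nat.pos_iff_ne_zero.1 (Nat.ceil_pos.2 (mul_pos hε hNr)))
  have hmle : ε * N ≤ m := Nat.le_ceil _
  set R : Finset (Fin N) := univ.filter (fun r : Fin N => m ∣ r.val + 1) with hR
  refine ⟨R.image (fun r => {x : Fin 1 → ℝ | a (e r) ≤ x 0 ∧ x 0 ≤ a (e r) + 1 / 2}),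
    ⟨?_, ?_⟩, ?_⟩
  · intro s hs
    obtain ⟨r, _, rfl⟩ := Finset.mem_image.1 hs
    exact vol_half _
  · intro G hG
    have hmG : m ≤ G.card := Nat.ceil_le.2 hG
    have hGne : G.Nonempty := Finset.card_pos.1 (by omega)
    set Q : Finset (Fin N) := G.image e.symm with hQ
    have hQc : Q.card = G.card := Finset.card_image_of_injective _ e.symm.injective
    have hQne : Q.Nonempty := hGne.image _
    have hsub : Q ⊆ Finset.Icc (Q.min' hQne) (Q.max' hQne) := by
      intro r hr
      rw [Finset.mem_Icc]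
      exact ⟨Finset.min'_le _ _ hr, Finset.le_max' _ _ hr⟩
    have hc := Finset.card_le_card hsub
    rw [Fin.card_Icc, hQc] at hc
    set r1 := Q.min' hQne with hr1
    set r2 := Q.max' hQne with hr2
    have hr12 : r1 ≤ r2 := Finset.min'_le_max' _ _
    have hr12' : (r1 : ℕ) ≤ (r2 : ℕ) := hr12
    -- the multiple
    have hdiv : m * ((r2.val + 1) / m) ≤ r2.val + 1 := Nat.mul_div_le _ _
    have hdiv2 : r2.val + 1 < m * ((r2.val + 1) / m) + m := by
      have := Nat.lt_mul_div_succ (r2.val + 1) (show 0 < m by omega)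
      rw [Nat.mul_add, Nat.mul_one] at this
      exact this
    have hr2N := r2.isLt
    set k := m * ((r2.val + 1) / m) with hk
    have hk1 : 1 ≤ k := by omega
    have hkr : k - 1 < N := by omega
    set r : Fin N := ⟨k - 1, hkr⟩ with hr
    have hrR : r ∈ R := by
      rw [hR, Finset.mem_filter]
      refine ⟨Finset.mem_univ _, ?_⟩
      have : r.val + 1 = k := by
        change k - 1 + 1 = k
        omega
      rw [this]
      exact Dvd.intro _ rfl
    have h1r : r1 ≤ r := by
      rw [Fin.le_def]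
      change (r1 : ℕ) ≤ k - 1
      omega
    have hr2' : r ≤ r2 := by
      rw [Fin.le_def]
      change k - 1 ≤ (r2 : ℕ)
      omega
    refine ⟨_, Finset.mem_image_of_mem _ hrR, ?_⟩
    intro x hx
    have hb1 : a (e r1) ≤ a (e r) := he h1r
    have hb2 : a (e r) ≤ a (e r2) := he hr2'
    have hg1 : e r1 ∈ G := by
      have := Finset.min'_mem Q hQne
      obtain ⟨g, hg, hgr⟩ := Finset.mem_image.1 this
      have : e r1 = g := by rw [hr1, ← hgr, Equiv.apply_symm_apply]
      rwa [this]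
    have hg2 : e r2 ∈ G := by
      have := Finset.max'_mem Q hQne
      obtain ⟨g, hg, hgr⟩ := Finset.mem_image.1 this
      have : e r2 = g := by rw [hr2, ← hgr, Equiv.apply_symm_apply]
      rwa [this]
    set P1 : Fin 1 → ℝ := fun _ => a (e r1) with hP1
    set P2 : Fin 1 → ℝ := fun _ => a (e r2) + 1 / 2 with hP2
    have hP1m : P1 ∈ ⋃ i ∈ G, F i := by
      simp only [Set.mem_iUnion]
      refine ⟨e r1, hg1, ha _ ?_⟩
      constructor
      · exact le_refl _
      · change a (e r1) ≤ a (e r1) + 1 / 2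
        linarith
    have hP2m : P2 ∈ ⋃ i ∈ G, F i := by
      simp only [Set.mem_iUnion]
      refine ⟨e r2, hg2, ha _ ?_⟩
      constructor
      · change a (e r2) ≤ a (e r2) + 1 / 2
        linarith
      · exact le_refl _
    apply (convex_convexHull ℝ (⋃ i ∈ G, F i)).segment_subset (subset_convexHull ℝ _ hP1m)
      (subset_convexHull ℝ _ hP2m)
    have hden : 0 < a (e r2) + 1 / 2 - a (e r1) := by linarith
    have hx1 : a (e r) ≤ x 0 := hx.1
    have hx2 : x 0 ≤ a (e r) + 1 / 2 := hx.2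
    refine ⟨1 - (x 0 - a (e r1)) / (a (e r2) + 1 / 2 - a (e r1)),
      (x 0 - a (e r1)) / (a (e r2) + 1 / 2 - a (e r1)), ?_, ?_, by ring, ?_⟩
    · rw [sub_nonneg, div_le_one hden]
      linarith
    · apply div_nonneg _ hden.le
      linarith
    · funext i
      rw [Subsingleton.elim i 0]
      simp only [hP1, hP2, Pi.add_apply, Pi.smul_apply, smul_eq_mul]
      have ht := div_mul_cancel₀ (x 0 - a (e r1)) hden.ne'
      linear_combination ht
  · have h1 : (R.image (fun r => {x : Fin 1 → ℝ | a (e r) ≤ x 0 ∧ x 0 ≤ a (e r) + 1 / 2})).card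
        ≤ N / m := by
      refine Finset.card_image_le.trans ?_
      rw [← Nat.card_multiples N m]
      apply Finset.card_le_card_of_injOn (fun r : Fin N => r.val)
      · intro r hr
        rw [Finset.mem_coe, hR, Finset.mem_filter] at hr
        rw [Finset.mem_coe, Finset.mem_filter, Finset.mem_range]
        exact ⟨r.isLt, hr.2⟩
      · intro r _ r' _ h
        exact Fin.ext h
    have h2 : (((R.image (fun r => {x : Fin 1 → ℝ | a (e r) ≤ x 0 ∧ x 0 ≤ a (e r) + 1 / 2})).card
        : ℕ) : ℝ) ≤ (N : ℝ) / m := by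
      refine le_trans (by exact_mod_cast h1) Nat.cast_div_le
    refine h2.trans ?_
    rw [one_mul, Real.rpow_neg_one, ← one_div, div_le_div_iff₀ (by exact_mod_cast hm1) hε]
    linarith

end Pool.Agent.Q164.VN
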