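import Pool.Agent.Q165.VN.Stm

set_option autoImplicit false

namespace Pool.Agent.Q164.VN

open MeasureTheory Finset Pool.Agent.Q165.VN

theorem trans : S_TRANS := by
  classical
  intro hI hV hP
  obtain ⟨C, hC⟩ := hP
  refine ⟨1 / 9000000, C, by norm_num, ?_⟩
  intro ε hε hε1 ι _ _ F hF hvol
  set L : (Fin 2 → ℝ) ≃ₗ[ℝ] ℝ × ℝ := LinearEquiv.finTwoArrow ℝ ℝ with hL
  have hcoe : ∀ x, (MeasurableEquiv.finTwoArrow : (Fin 2 → ℝ) ≃ᵐ ℝ × ℝ) x = L x := fun x => rfl
  have hmp := MeasureTheory.volume_preserving_finTwoArrow ℝ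
  have hpre : ∀ s : Set (ℝ × ℝ), volume (L ⁻¹' s) = volume s := by
    intro s
    have := hmp.measure_preimage_equiv s
    exact this
  have himg : ∀ s : Set (Fin 2 → ℝ), volume (L '' s) = volume s := by
    intro s
    have h := hpre (L '' s)
    rw [Set.preimage_image_eq _ L.injective] at h
    exact h.symm
  have hex : ∀ i, ∃ q : P5, q.Good ∧ par q ⊆ L '' F i := by
    intro i
    apply hI
    · exact (hF i).linear_image L.toLinearMap
    · rw [himg, hvol]
  choose q hq hqs using hex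
  obtain ⟨S, hS, hcard⟩ := hC ε hε hε1 ι q hq
  refine ⟨S.image (fun s => L ⁻¹' s), ⟨?_, ?_⟩, ?_⟩
  · intro t ht
    obtain ⟨s, hs, rfl⟩ := Finset.mem_image.1 ht
    obtain ⟨m, p0, κ0, Z, u, v, hZ, rfl⟩ := hS.1 s hs
    rw [hpre]
    exact hV m p0 κ0 Z u v hZ
  · intro G hG
    obtain ⟨s, hs, hsub⟩ := hS.2 G hG
    refine ⟨L ⁻¹' s, Finset.mem_image_of_mem _ hs, ?_⟩
    intro x hx
    have h1 : L x ∈ convexHull ℝ (⋃ i ∈ G, par (q i)) := hsub hx
    have h2 : (⋃ i ∈ G, par (q i)) ⊆ L.toLinearMap '' (⋃ i ∈ G, F i) := by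
      intro y hy
      simp only [Set.mem_iUnion] at hy
      obtain ⟨i, hi, hyi⟩ := hy
      obtain ⟨z, hz, rfl⟩ := hqs i hyi
      exact ⟨z, by simp only [Set.mem_iUnion]; exact ⟨i, hi, hz⟩, rfl⟩
    have h3 := convexHull_mono h2 h1
    rw [← LinearMap.image_convexHull] at h3
    obtain ⟨y, hy, hyx⟩ := h3
    have : y = x := L.injective hyx
    rwa [← this]
  · have h1 : ((S.image (fun s => L ⁻¹' s)).card : ℝ) ≤ S.card := by
      exact_mod_cast Finset.card_image_le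
    refine h1.trans (hcard.trans (le_of_eq ?_))
    rw [Real.rpow_neg hε.le, Real.rpow_two]
    rfl

end Pool.Agent.Q164.VN
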